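import Pool.Agent.Lib_helper98.HN.DefsH
import Pool.Agent.Lib_helper98.HQ.Defs

/-!
# HL4: windows of length `T^(99/100)` for single `L`-functions of degree 4: definitions

`PF M k0 k1 P`: the restriction of a Hilbert modular form to the closed surface
`SL₂(ℤ) \ (ℍ × ℍ)`, `g` acting by `(Z, W) ↦ (g Z, g^e W)`, `g^e = [[a, -b], [-c, d]]`.
-/

namespace Pool.Agent.HL4

open UpperHalfPlane hiding I
open Complex MeasureTheory Filter Topology NumberField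
open Pool.Agent.HSG (Em Lat)
open Pool.Agent.HSG.N (Prim LForm QF v2 HK LamH GG)
open scoped nonZeroDivisors MatrixGroups

/-! ### Families on `ℍ × ℍ` -/

/-- Families of holomorphic functions on `ℍ × ℍ`, equivariant under `SL₂(ℤ)`. -/
structure PF (M k0 k1 : ℕ) (P : ZMod M → ZMod M → ℂ → ℂ → ℂ) : Prop where
  Mpos : 4 ≤ M
  k0pos : 1 ≤ k0
  k1pos : 1 ≤ k1
  mod : ∀ a b c d : ℤ, a * d - b * c = 1 → ∀ (x y : ZMod M) (Z W : ℂ), 0 < Z.im → 0 < W.im →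
    P x y ((a * Z + b) / (c * Z + d)) ((a * W - b) / (-c * W + d)) =
      (c * Z + d) ^ k0 * (-c * W + d) ^ k1 * P (x * a + y * c) (x * b + y * d) Z W
  holo : ∀ x y : ZMod M, DifferentiableOn ℂ (fun p : ℂ × ℂ => P x y p.1 p.2)
    {p | 0 < p.1.im ∧ 0 < p.2.im}
  bdd : ∃ C : ℝ, 0 < C ∧ ∀ (x y : ZMod M) (Z W : ℂ), 0 < Z.im → 0 < W.im →
    ‖P x y Z W‖ ≤ C * Z.im ^ (-((k0 : ℝ) / 2)) * W.im ^ (-((k1 : ℝ) / 2))

/-- half of the sum of the weights -/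
noncomputable def kk (k0 k1 : ℕ) : ℝ := ((k0 : ℝ) + k1) / 2

/-- the mean over the closed horocycle: `A(u) = ∫_0^1 P(x + u/2, -x + u/2) dx` -/
noncomputable def mA {M : ℕ} (P : ZMod M → ZMod M → ℂ → ℂ → ℂ) (u : ℂ) : ℂ :=
  ∫ x in (0 : ℝ)..1, P 0 1 (x + u / 2) (-x + u / 2)

/-- `h(z) = tanh(z/2) = (e^z - 1)/(e^z + 1)` -/
noncomputable def hh (z : ℂ) : ℂ := (cexp z - 1) / (cexp z + 1)

/-- `h'(v) = 2 e^v/(e^v + 1)²` for real `v` -/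
noncomputable def hd (v : ℝ) : ℝ := 2 * Real.exp v / (Real.exp v + 1) ^ 2

/-- `ω = (x + i δ)/2` -/
noncomputable def om2 (δ x : ℝ) : ℂ := ((x : ℂ) + δ * I) / 2

/-! ### The rotated moments -/

/-- The rotated moments with an arbitrary phase have a main term and a power saving
(`β = π`, `κ = (k_0 + k_1)/2`). -/
def Ups (Λ : ℂ → ℂ) (κ β : ℝ) : Prop :=
  ∃ (c : ℂ) (C : ℝ), ∀ δ : ℝ, 0 < δ → δ ≤ 1 → ∀ x : ℝ,
    ‖(∫ t : ℝ, Λ (1 / 2 + t * I) * ((Real.exp ((β - δ) * t) : ℝ) : ℂ) *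
      cexp ((x * t : ℝ) * I)) - c * ((δ : ℂ) - x * I) ^ (-(κ : ℂ))‖ ≤
      C * δ ^ (-κ + 3 / 100) * (1 + |x| / δ) ^ 2

/-- The asymptotic behaviour of `G` at the boundary point `-Q^{-1/2}`. -/
def GAs (m : ℕ) (Q : ℝ) (G : ℂ → ℂ) : Prop :=
  ∃ (c : ℂ) (C : ℝ), ∀ δ x : ℝ, 0 < δ → δ ≤ 1 → |x| ≤ 1 →
    ‖G (-(((Q ^ (-(1 / 2) : ℝ) : ℝ) : ℂ) * cexp (-om2 δ x))) -
      c * ((δ : ℂ) - x * I) ^ (-((m : ℂ) / 2))‖ ≤
      C * δ ^ (-((m : ℝ) / 2) + 3 / 100) * (1 + |x| / δ) ^ 2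

end Pool.Agent.HL4
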