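import Pool.Agent.Lib_helper68.HL4.Defs
import Pool.Agent.Lib_helper84.HSG.DefsB

/-!
# HL4: definitions for part III (curve, closed surface, geometry)
-/

namespace Pool.Agent.HL4

open UpperHalfPlane hiding I
open Complex MeasureTheory Filter Topology NumberField
open Pool.Agent.HSG (Em Lat IsInt nI NCl dgm lz)
open Pool.Agent.HSG.N (Prim LForm QF v2 HK LamH GG Gb pz)
open scoped nonZeroDivisors MatrixGroups

/-- `h(v)` for real `v` -/
noncomputable def hr (v : ℝ) : ℝ := (Real.exp v - 1) / (Real.exp v + 1)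

variable {K : Type} [Field K] [NumberField K]

/-- the matrix `[[a, b ρ], [c/ρ, d]]` of `[[a, b], [c, d]] ∈ SL₂(ℤ)` -/
noncomputable def gr (ρ : Kˣ) : SL(2, ℤ) →* GL (Fin 2) K :=
  (MulAut.conj (dgm ρ)).toMonoidHom.comp
    ((Matrix.SpecialLinearGroup.toGL (n := Fin 2) (R := K)).comp
      (Matrix.SpecialLinearGroup.map (n := Fin 2) (Int.castRingHom K)))

open scoped Classical in
/-- the family `P_e(Z, W) = F((rZ, rW); L γ_ρ, v γ_ρ)`, `e` the bottom row of `γ` modulo `M` -/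
noncomputable def Pe (w0 : Em K) (F : (Em K → ℍ) → Lat K → (Fin 2 → K) → ℂ) (L : Lat K)
    (v : Fin 2 → K) (ρ : Kˣ) (r : ℝ) (M : ℕ) (x y : ZMod M) (Z W : ℂ) : ℂ :=
  if h : ∃ q : SL(2, ℤ), ((q 1 0 : ℤ) : ZMod M) = x ∧ ((q 1 1 : ℤ) : ZMod M) = y then
    F (v2 w0 (ofComplex (r * Z)) (ofComplex (r * W))) (L.mul (gr ρ h.choose))
      (Matrix.vecMul v (gr ρ h.choose : Matrix (Fin 2) (Fin 2) K))
  else 0

/-- the matrix `[[λ, -λ], [1, 1]]` -/
noncomputable def gmm (lam : Kˣ) : GL (Fin 2) K :=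
  dgm lam * Matrix.GeneralLinearGroup.mkOfDetNeZero !![(1 : K), -1; 1, 1] (by
    rw [Matrix.det_fin_two_of]; norm_num)

/-- the matrix `[[λ, λ], [-1, 1]]` -/
noncomputable def gpp (lam : Kˣ) : GL (Fin 2) K :=
  dgm lam * Matrix.GeneralLinearGroup.mkOfDetNeZero !![(1 : K), 1; -1, 1] (by
    rw [Matrix.det_fin_two_of]; norm_num)

end Pool.Agent.HL4
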